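import Pool.Agent.Q217.FL.Logic

set_option autoImplicit false

/-!
# Amalgamation
-/

namespace Pool.Agent.Q217.FL

/-- Embeddings of systems that preserve the residuals. -/
def Emb {X Y X' Y' : Type} (S : Sys X Y) (T : Sys X' Y') (f : X → X') (g : Y → Y') : Prop :=
  Function.Injective f ∧ Function.Injective g ∧ (∀ a b, T.op (f a) (f b) = g (S.op a b)) ∧
    ∀ a t e, T.op (f a) t = g e → ∃ d, f d = t

/-- The map of the algebras. -/
def mapE {X Y X' Y' : Type} (f : X → X') (g : Y → Y') : El X Y → El X' Y'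
  | .zero => .zero
  | .y d => .y (g d)
  | .b => .b
  | .x a => .x (f a)
  | .c => .c
  | .one => .one

section emb

variable {X Y X' Y' : Type} {S : Sys X Y} {T : Sys X' Y'} {f : X → X'} {g : Y → Y'}

theorem map_rank (u : El X Y) : (mapE f g u).rank = u.rank := by
  cases u <;> rfl

theorem map_inj (h : Emb S T f g) {u w : El X Y} (huw : mapE f g u = mapE f g w) : u = w := by
  cases u <;> cases w <;> simp_all [mapE]
  · exact h.2.1 huw
  · exact h.1 huw

theorem map_le (h : Emb S T f g) (u w : El X Y) :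
    El.le (mapE f g u) (mapE f g w) ↔ El.le u w := by
  unfold El.le
  rw [map_rank, map_rank]
  refine or_congr ⟨map_inj h, fun h => by rw [h]⟩ Iff.rfl

theorem map_one (u : El X Y) : mapE f g u = El.one ↔ u = El.one := by
  cases u <;> simp [mapE]

theorem res_x_y {X Y : Type} (S : Sys X Y) (a a' : X) :
    El.res S (El.x a) (El.y (S.op a a')) = El.x a' := by
  refine El.eq_of_le_iff fun w => ?_
  rw [← El.res_spec]
  cases w with
  | x d =>
    simp only [El.mul, El.le, El.rank, lt_irrefl, or_false, El.y.injEq, El.x.injEq]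
    exact ⟨fun h => S.inj _ _ _ h, fun h => by rw [h]⟩
  | _ => simp [El.mul, El.le, El.rank]

theorem map_eval (h : Emb S T f g) (v : ℕ → El X Y) (φ : Fml) :
    evalE T (fun n => mapE f g (v n)) φ = mapE f g (evalE S v φ) := by
  induction φ with
  | var n => rfl
  | and φ ψ ih1 ih2 =>
    rw [evalE, evalE, ih1, ih2]
    have q1 := map_le h (evalE S v φ) (evalE S v ψ)
    have q2 := map_le h (evalE S v ψ) (evalE S v φ)
    have q3 : (mapE f g (evalE S v φ)).rank = 1 ↔ (evalE S v φ).rank = 1 := by rw [map_rank]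
    unfold El.inf
    split_ifs <;> first | rfl | (exfalso; tauto)
  | or φ ψ ih1 ih2 =>
    rw [evalE, evalE, ih1, ih2]
    have q1 := map_le h (evalE S v φ) (evalE S v ψ)
    have q2 := map_le h (evalE S v ψ) (evalE S v φ)
    have q3 : (mapE f g (evalE S v φ)).rank = 1 ↔ (evalE S v φ).rank = 1 := by rw [map_rank]
    unfold El.sup
    split_ifs <;> first | rfl | (exfalso; tauto)
  | mul φ ψ ih1 ih2 =>
    rw [evalE, evalE, ih1, ih2]
    generalize evalE S v φ = u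
    generalize evalE S v ψ = w
    cases u <;> cases w <;> simp [mapE, El.mul, h.2.2.1]
  | imp φ ψ ih1 ih2 =>
    rw [evalE, evalE, ih1, ih2]
    generalize evalE S v φ = u
    generalize evalE S v ψ = w
    by_cases h4 : ∃ a a', u = El.x a ∧ w = El.y (S.op a a')
    · obtain ⟨a, a', rfl, rfl⟩ := h4
      rw [res_x_y]
      change El.res T (El.x (f a)) (El.y (g (S.op a a'))) = El.x (f a')
      rw [← h.2.2.1, res_x_y]
    · have h5 : ¬ ∃ a a', mapE f g u = El.x a ∧ mapE f g w = El.y (T.op a a') := by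
        rintro ⟨t, t', h6, h7⟩
        cases u with
        | x a =>
          cases w with
          | y e =>
            simp only [mapE, El.x.injEq, El.y.injEq] at h6 h7
            subst h6
            obtain ⟨d, rfl⟩ := h.2.2.2 a t' e h7.symm
            rw [h.2.2.1] at h7
            exact h4 ⟨a, d, rfl, by rw [h.2.1 h7]⟩
          | _ => simp [mapE] at h7
        | _ => simp [mapE] at h6
      have q1 := map_le h u w
      have q2 : mapE f g u = El.one ↔ u = El.one := map_one u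
      have q3 : ((mapE f g u).rank ≤ 2 ∨ 2 ≤ (mapE f g w).rank) ↔ (u.rank ≤ 2 ∨ 2 ≤ w.rank) := by
        rw [map_rank, map_rank]
      unfold El.res
      rw [dif_neg h4, dif_neg h5]
      split_ifs <;> first | rfl | (exfalso; tauto)
  | e => rfl
  | f => rfl

end emb

/-- Gluing two sets along a partial bijection. -/
theorem pushout {A B : Type} (ρ : A → B → Prop) (h1 : ∀ a b b', ρ a b → ρ a b' → b = b')
    (h2 : ∀ a a' b, ρ a b → ρ a' b → a = a') :
    ∃ (C : Type) (i : A → C) (j : B → C), Function.Injective i ∧ Function.Injective j ∧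
      (∀ a b, i a = j b ↔ ρ a b) ∧ ∀ c, (∃ a, i a = c) ∨ ∃ b, j b = c := by
  classical
  let j : B → A ⊕ B := fun b => if h : ∃ a, ρ a b then Sum.inl h.choose else Sum.inr b
  have hj1 : ∀ a b, ρ a b → j b = Sum.inl a := by
    intro a b hab
    have h : ∃ a, ρ a b := ⟨a, hab⟩
    simp only [j]
    rw [dif_pos h, h2 _ _ _ h.choose_spec hab]
  have hj2 : ∀ b, (¬ ∃ a, ρ a b) → j b = Sum.inr b := by
    intro b hb
    simp only [j]
    rw [dif_neg hb]
  have hj3 : ∀ a b, j b = Sum.inl a → ρ a b := by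
    intro a b hab
    by_cases h : ∃ a, ρ a b
    · obtain ⟨a', ha'⟩ := h
      rw [hj1 a' b ha'] at hab
      rw [← Sum.inl.inj hab]
      exact ha'
    · rw [hj2 b h] at hab
      simp at hab
  refine ⟨{c : A ⊕ B // (∃ a, Sum.inl a = c) ∨ ∃ b, j b = c}, fun a => ⟨Sum.inl a, Or.inl ⟨a, rfl⟩⟩,
    fun b => ⟨j b, Or.inr ⟨b, rfl⟩⟩, ?_, ?_, ?_, ?_⟩
  · intro a a' h
    exact Sum.inl.inj (congrArg Subtype.val h)
  · intro b b' h
    have h3 : j b = j b' := congrArg Subtype.val h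
    by_cases h4 : ∃ a, ρ a b
    · obtain ⟨a, ha⟩ := h4
      rw [hj1 a b ha] at h3
      exact h1 a b b' ha (hj3 a b' h3.symm)
    · by_cases h5 : ∃ a, ρ a b'
      · obtain ⟨a, ha⟩ := h5
        rw [hj1 a b' ha] at h3
        exact absurd ⟨a, hj3 a b h3⟩ h4
      · rw [hj2 b h4, hj2 b' h5] at h3
        exact Sum.inr.inj h3
  · intro a b
    constructor
    · intro h
      exact hj3 a b (congrArg Subtype.val h).symm
    · intro h
      exact Subtype.ext (hj1 a b h).symm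
  · rintro ⟨c, hc⟩
    rcases hc with ⟨a, ha⟩ | ⟨b, hb⟩
    · exact Or.inl ⟨a, Subtype.ext ha⟩
    · exact Or.inr ⟨b, Subtype.ext hb⟩

/-- Amalgamation of systems. -/
theorem amalgam {X1 Y1 X2 Y2 : Type} (S1 : Sys X1 Y1) (S2 : Sys X2 Y2) (ρ : X1 → X2 → Prop)
    (σ : Y1 → Y2 → Prop)
    (ρ1 : ∀ a b b', ρ a b → ρ a b' → b = b') (ρ2 : ∀ a a' b, ρ a b → ρ a' b → a = a')
    (σ1 : ∀ a b b', σ a b → σ a b' → b = b') (σ2 : ∀ a a' b, σ a b → σ a' b → a = a')
    (h1 : ∀ a a' d d', ρ a a' → ρ d d' → σ (S1.op a d) (S2.op a' d'))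
    (h2 : ∀ a a' d e', ρ a a' → σ (S1.op a d) e' → ∃ d', ρ d d' ∧ S2.op a' d' = e')
    (h3 : ∀ a a' e d', ρ a a' → σ e (S2.op a' d') → ∃ d, ρ d d' ∧ S1.op a d = e) :
    ∃ (X Y : Type) (T : Sys X Y) (i : X1 → X) (k : Y1 → Y) (j : X2 → X) (l : Y2 → Y),
      Emb S1 T i k ∧ Emb S2 T j l ∧ (∀ a b, ρ a b → i a = j b) ∧ (∀ a b, σ a b → k a = l b) ∧
      ∀ P : Set ℕ, (∀ p ∈ P, ∃ h : ZMod p, h + h = 1) → Omits P S1 → Omits P S2 → Omits P T := by
  classical
  obtain ⟨X, i, j, hi, hj, hij, hX⟩ := pushout ρ ρ1 ρ2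
  obtain ⟨Y0, k, l, hk, hl, hkl, -⟩ := pushout σ σ1 σ2
  let op : X → X → Y0 ⊕ Sym2 X := fun s t =>
    if h : ∃ q : X1 × X1, i q.1 = s ∧ i q.2 = t then Sum.inl (k (S1.op h.choose.1 h.choose.2)) else
      if h : ∃ q : X2 × X2, j q.1 = s ∧ j q.2 = t then
        Sum.inl (l (S2.op h.choose.1 h.choose.2)) else Sum.inr s(s, t)
  have opi : ∀ a d, op (i a) (i d) = Sum.inl (k (S1.op a d)) := by
    intro a d
    have h : ∃ q : X1 × X1, i q.1 = i a ∧ i q.2 = i d := ⟨(a, d), rfl, rfl⟩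
    simp only [op]
    rw [dif_pos h, hi h.choose_spec.1, hi h.choose_spec.2]
  have opj : ∀ a d, op (j a) (j d) = Sum.inl (l (S2.op a d)) := by
    intro a' d'
    by_cases h : ∃ q : X1 × X1, i q.1 = j a' ∧ i q.2 = j d'
    · obtain ⟨⟨a, d⟩, h4, h5⟩ := h
      simp only at h4 h5
      rw [← h4, ← h5, opi, (hkl _ _).2 (h1 a a' d d' ((hij _ _).1 h4) ((hij _ _).1 h5))]
    · have h' : ∃ q : X2 × X2, j q.1 = j a' ∧ j q.2 = j d' := ⟨(a', d'), rfl, rfl⟩
      simp only [op]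
      rw [dif_neg h, dif_pos h', hj h'.choose_spec.1, hj h'.choose_spec.2]
  have opn : ∀ s t, (¬ ∃ a d, i a = s ∧ i d = t) → (¬ ∃ a d, j a = s ∧ j d = t) →
      op s t = Sum.inr s(s, t) := by
    intro s t h4 h5
    have h6 : ¬ ∃ q : X1 × X1, i q.1 = s ∧ i q.2 = t := by
      rintro ⟨⟨a, d⟩, h⟩
      exact h4 ⟨a, d, h⟩
    have h7 : ¬ ∃ q : X2 × X2, j q.1 = s ∧ j q.2 = t := by
      rintro ⟨⟨a, d⟩, h⟩
      exact h5 ⟨a, d, h⟩
    simp only [op]
    rw [dif_neg h6, dif_neg h7]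
  have cases3 : ∀ s t, (∃ a d, i a = s ∧ i d = t) ∨ (∃ a d, j a = s ∧ j d = t) ∨
      ((¬ ∃ a d, i a = s ∧ i d = t) ∧ ¬ ∃ a d, j a = s ∧ j d = t) := by
    intro s t
    tauto
  have comm : ∀ s t, op s t = op t s := by
    intro s t
    rcases cases3 s t with ⟨a, d, rfl, rfl⟩ | ⟨a, d, rfl, rfl⟩ | ⟨h4, h5⟩
    · rw [opi, opi, S1.comm]
    · rw [opj, opj, S2.comm]
    · rw [opn s t h4 h5, opn t s (by rintro ⟨a, d, h6, h7⟩; exact h4 ⟨d, a, h7, h6⟩)
        (by rintro ⟨a, d, h6, h7⟩; exact h5 ⟨d, a, h7, h6⟩), Sym2.eq_swap]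
  have inj : ∀ s t t', op s t = op s t' → t = t' := by
    intro s t t' h
    rcases cases3 s t with ⟨a, d, h4, rfl⟩ | ⟨a, d, h4, rfl⟩ | ⟨h4, h5⟩
    · rcases cases3 s t' with ⟨a', d', h6, rfl⟩ | ⟨a', d', h6, rfl⟩ | ⟨h6, h7⟩
      · subst h4
        obtain rfl := hi h6
        rw [opi, opi] at h
        rw [S1.inj _ _ _ (hk (Sum.inl.inj h))]
      · subst h4
        rw [opi] at h
        rw [← h6, opj] at h
        have h8 := (hkl _ _).1 (Sum.inl.inj h)
        obtain ⟨d'', h9, h10⟩ := h2 a a' d _ ((hij _ _).1 h6.symm) h8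
        rw [← S2.inj _ _ _ h10]
        exact (hij _ _).2 h9
      · rw [opn _ _ h6 h7, ← h4, opi] at h
        simp at h
    · rcases cases3 s t' with ⟨a', d', h6, rfl⟩ | ⟨a', d', h6, rfl⟩ | ⟨h6, h7⟩
      · subst h4
        rw [opj] at h
        rw [← h6, opi] at h
        have h8 := (hkl _ _).1 (Sum.inl.inj h.symm)
        obtain ⟨d'', h9, h10⟩ := h2 a' a d' _ ((hij _ _).1 h6) h8
        rw [← S2.inj _ _ _ h10]
        exact ((hij _ _).2 h9).symm
      · subst h4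
        obtain rfl := hj h6
        rw [opj, opj] at h
        rw [S2.inj _ _ _ (hl (Sum.inl.inj h))]
      · rw [opn _ _ h6 h7, ← h4, opj] at h
        simp at h
    · rcases cases3 s t' with ⟨a', d', h6, rfl⟩ | ⟨a', d', h6, rfl⟩ | ⟨h6, h7⟩
      · rw [opn _ _ h4 h5, ← h6, opi] at h
        simp at h
      · rw [opn _ _ h4 h5, ← h6, opj] at h
        simp at h
      · rw [opn _ _ h4 h5, opn _ _ h6 h7] at h
        exact Sym2.congr_right.1 (Sum.inr.inj h)
  refine ⟨X, Y0 ⊕ Sym2 X, ⟨op, comm, inj⟩, i, fun d => Sum.inl (k d), j, fun d => Sum.inl (l d),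
    ⟨hi, fun _ _ h => hk (Sum.inl.inj h), opi, ?_⟩, ⟨hj, fun _ _ h => hl (Sum.inl.inj h), opj, ?_⟩,
    fun a b h => (hij a b).2 h, fun a b h => congrArg Sum.inl ((hkl a b).2 h), ?_⟩
  · intro a t e h
    change op (i a) t = Sum.inl (k e) at h
    rcases cases3 (i a) t with ⟨a', d, h4, rfl⟩ | ⟨a', d, h4, rfl⟩ | ⟨h4, h5⟩
    · exact ⟨d, rfl⟩
    · rw [← h4, opj] at h
      obtain ⟨d', h6, -⟩ := h3 a a' e d ((hij _ _).1 h4.symm) ((hkl _ _).1 (Sum.inl.inj h.symm))
      exact ⟨d', (hij _ _).2 h6⟩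
    · rw [opn _ _ h4 h5] at h
      simp at h
  · intro a t e h
    change op (j a) t = Sum.inl (l e) at h
    rcases cases3 (j a) t with ⟨a', d, h4, rfl⟩ | ⟨a', d, h4, rfl⟩ | ⟨h4, h5⟩
    · rw [← h4, opi] at h
      obtain ⟨d', h6, -⟩ := h2 a' a d e ((hij _ _).1 h4) ((hkl _ _).1 (Sum.inl.inj h))
      exact ⟨d', ((hij _ _).2 h6).symm⟩
    · exact ⟨d, rfl⟩
    · rw [opn _ _ h4 h5] at h
      simp at h
  · rintro P hP hS1 hS2 p hp ⟨z, hz, hz'⟩
    change ∀ a b, op (z a) (z b) = op (z (a + b)) (z 0) at hz'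
    obtain ⟨h, hh⟩ := hP p hp
    have hdiag : ∀ c, ∃ d, op (z c) (z c) = Sum.inl d := by
      intro c
      rcases hX (z c) with ⟨a, ha⟩ | ⟨a, ha⟩
      · rw [← ha, opi]
        exact ⟨_, rfl⟩
      · rw [← ha, opj]
        exact ⟨_, rfl⟩
    have hold : ∀ a b, (∃ a' d, i a' = z a ∧ i d = z b) ∨ ∃ a' d, j a' = z a ∧ j d = z b := by
      intro a b
      rcases cases3 (z a) (z b) with h4 | h4 | ⟨h4, h5⟩
      · exact Or.inl h4
      · exact Or.inr h4
      · exfalso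
        obtain ⟨d, hd⟩ := hdiag ((a + b) * h)
        have h6 := hz' ((a + b) * h) ((a + b) * h)
        rw [← mul_add, hh, mul_one, ← hz' a b, hd, opn _ _ h4 h5] at h6
        simp at h6
    by_cases h4 : ∀ a, ∃ a', i a' = z a
    · choose z' hz'' using h4
      refine hS1 p hp ⟨z', fun a b hab => hz (by rw [← hz'' a, ← hz'' b, hab]), fun a b => ?_⟩
      have h5 := hz' a b
      rw [← hz'', ← hz'', ← hz'', ← hz'', opi, opi] at h5
      exact hk (Sum.inl.inj h5)
    · by_cases h5 : ∀ a, ∃ a', j a' = z a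
      · choose z' hz'' using h5
        refine hS2 p hp ⟨z', fun a b hab => hz (by rw [← hz'' a, ← hz'' b, hab]), fun a b => ?_⟩
        have h5 := hz' a b
        rw [← hz'', ← hz'', ← hz'', ← hz'', opj, opj] at h5
        exact hl (Sum.inl.inj h5)
      · push Not at h4 h5
        obtain ⟨a, ha⟩ := h4
        obtain ⟨b, hb⟩ := h5
        rcases hold a b with ⟨a', d, h6, -⟩ | ⟨a', d, -, h6⟩
        · exact ha a' h6
        · exact hb d h6

end Pool.Agent.Q217.FL
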