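import Mathlib

set_option autoImplicit false

/-!
# FL_ew: algebras, formulas, consequence relations
-/

namespace Pool.Agent.Q217.FL

/-- `FL_ew`-algebras: commutative residuated lattices in which the unit is the top element,
with a bottom element. -/
class FLewAlgebra (A : Type) extends Lattice A, BoundedOrder A, CommMonoid A where
  /-- The residual. -/
  res : A → A → A
  one_eq_top : (1 : A) = ⊤
  mul_le_iff : ∀ a b c : A, a * b ≤ c ↔ b ≤ res a c

/-- Formulas in the language `∧, ∨, ·, →, e, f`. -/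
inductive Fml : Type
  | var : ℕ → Fml
  | and : Fml → Fml → Fml
  | or : Fml → Fml → Fml
  | mul : Fml → Fml → Fml
  | imp : Fml → Fml → Fml
  | e : Fml
  | f : Fml

/-- The variables of a formula. -/
def Fml.vars : Fml → Set ℕ
  | .var n => {n}
  | .and φ ψ => φ.vars ∪ ψ.vars
  | .or φ ψ => φ.vars ∪ ψ.vars
  | .mul φ ψ => φ.vars ∪ ψ.vars
  | .imp φ ψ => φ.vars ∪ ψ.vars
  | .e => ∅
  | .f => ∅

/-- Substitution. -/
def Fml.subst (s : ℕ → Fml) : Fml → Fml
  | .var n => s n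
  | .and φ ψ => .and (φ.subst s) (ψ.subst s)
  | .or φ ψ => .or (φ.subst s) (ψ.subst s)
  | .mul φ ψ => .mul (φ.subst s) (ψ.subst s)
  | .imp φ ψ => .imp (φ.subst s) (ψ.subst s)
  | .e => .e
  | .f => .f

/-- The value of a formula in an algebra. -/
def eval {A : Type} [FLewAlgebra A] (v : ℕ → A) : Fml → A
  | .var n => v n
  | .and φ ψ => eval v φ ⊓ eval v ψ
  | .or φ ψ => eval v φ ⊔ eval v ψ
  | .mul φ ψ => eval v φ * eval v ψ
  | .imp φ ψ => FLewAlgebra.res (eval v φ) (eval v ψ)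
  | .e => 1
  | .f => ⊥

/-- The consequence relation of `FL_ew`. -/
def FLew (Γ : Set Fml) (φ : Fml) : Prop :=
  ∀ (A : Type) (_ : FLewAlgebra A) (v : ℕ → A), (∀ γ ∈ Γ, eval v γ = 1) → eval v φ = 1

/-- Axiomatic extensions of `FL_ew`: the relation `R` is obtained by adding a set `Ax` of axioms that is
closed under substitution. -/
def AxiomaticExtension (R : Set Fml → Fml → Prop) : Prop :=
  ∃ Ax : Set Fml, (∀ α ∈ Ax, ∀ s : ℕ → Fml, α.subst s ∈ Ax) ∧ ∀ Γ φ, R Γ φ ↔ FLew (Γ ∪ Ax) φ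

/-- The variables of a set of formulas. -/
def varsOf (Γ : Set Fml) : Set ℕ := {n | ∃ γ ∈ Γ, n ∈ γ.vars}

/-- The deductive interpolation property. -/
def DIP (R : Set Fml → Fml → Prop) : Prop :=
  ∀ Γ φ, R Γ φ → ∃ Δ : Set Fml, varsOf Δ ⊆ varsOf Γ ∩ φ.vars ∧ (∀ δ ∈ Δ, R Γ δ) ∧ R Δ φ

theorem eval_subst {A : Type} [FLewAlgebra A] (v : ℕ → A) (s : ℕ → Fml) (φ : Fml) :
    eval v (φ.subst s) = eval (fun n => eval v (s n)) φ := by
  induction φ with
  | var n => rfl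
  | and φ ψ ih1 ih2 => rw [Fml.subst, eval, eval, ih1, ih2]
  | or φ ψ ih1 ih2 => rw [Fml.subst, eval, eval, ih1, ih2]
  | mul φ ψ ih1 ih2 => rw [Fml.subst, eval, eval, ih1, ih2]
  | imp φ ψ ih1 ih2 => rw [Fml.subst, eval, eval, ih1, ih2]
  | e => rfl
  | f => rfl

theorem eval_congr {A : Type} [FLewAlgebra A] {v w : ℕ → A} (φ : Fml)
    (h : ∀ n ∈ φ.vars, v n = w n) : eval v φ = eval w φ := by
  induction φ with
  | var n => exact h n rfl
  | and φ ψ ih1 ih2 =>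
    rw [eval, eval, ih1 fun n hn => h n (Or.inl hn), ih2 fun n hn => h n (Or.inr hn)]
  | or φ ψ ih1 ih2 =>
    rw [eval, eval, ih1 fun n hn => h n (Or.inl hn), ih2 fun n hn => h n (Or.inr hn)]
  | mul φ ψ ih1 ih2 =>
    rw [eval, eval, ih1 fun n hn => h n (Or.inl hn), ih2 fun n hn => h n (Or.inr hn)]
  | imp φ ψ ih1 ih2 =>
    rw [eval, eval, ih1 fun n hn => h n (Or.inl hn), ih2 fun n hn => h n (Or.inr hn)]
  | e => rfl
  | f => rfl

end Pool.Agent.Q217.FL
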