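import Pool.Agent.Q217.FL.Amalg

set_option autoImplicit false

/-!
# Interpolation and separation
-/

namespace Pool.Agent.Q217.FL

/-- The four tests that determine the sort of an element. -/
theorem rank_eq {X Y X' Y' : Type} (S : Sys X Y) (T : Sys X' Y') (a : El X Y) (a' : El X' Y')
    (h0 : El.le a El.zero ↔ El.le a' El.zero)
    (h5 : El.le El.one a ↔ El.le El.one a')
    (h1 : El.le (El.res S (El.res S a El.zero) El.zero) a ↔
      El.le (El.res T (El.res T a' El.zero) El.zero) a')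
    (h2 : El.le (El.mul S (El.res S (El.res S a El.zero) El.zero)
        (El.res S (El.res S a El.zero) El.zero)) El.zero ↔
      El.le (El.mul T (El.res T (El.res T a' El.zero) El.zero)
        (El.res T (El.res T a' El.zero) El.zero)) El.zero) : a.rank = a'.rank := by
  cases a <;> cases a' <;>
    simp_all [El.le, El.rank, El.res, El.mul]

theorem res_x_y_spec {X Y : Type} (S : Sys X Y) {a : X} {e : Y} {r : El X Y}
    (h : El.res S (El.x a) (El.y e) = r) (hr : r.rank = 3) : ∃ d, r = El.x d ∧ S.op a d = e := by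
  cases r with
  | x d =>
    refine ⟨d, rfl, ?_⟩
    have h1 := (El.res_spec S (El.x a) (El.x d) (El.y e)).2 (by rw [h]; exact El.le_refl' _)
    simpa [El.mul, El.le, El.rank] using h1
  | _ => simp [El.rank] at hr

theorem amalg_mod {P : Set ℕ} (hP : ∀ p ∈ P, ∃ h : ZMod p, h + h = 1) (C D : Set ℕ) (M N : Mod P)
    (h : ∀ δ : Fml, δ.vars ⊆ C ∩ D → (evalE M.S M.v δ = El.one ↔ evalE N.S N.v δ = El.one)) :
    ∃ T : Mod P, (∀ φ : Fml, φ.vars ⊆ C → evalE M.S M.v φ = El.one →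
        evalE T.S T.v φ = El.one) ∧
      ∀ φ : Fml, φ.vars ⊆ D → evalE T.S T.v φ = El.one → evalE N.S N.v φ = El.one := by
  classical
  let R : El M.X M.Y → El N.X N.Y → Prop := fun a a' =>
    ∃ δ : Fml, δ.vars ⊆ C ∩ D ∧ evalE M.S M.v δ = a ∧ evalE N.S N.v δ = a'
  have Rone : ∀ {a a'}, R a a' → (a = El.one ↔ a' = El.one) := by
    rintro _ _ ⟨δ, hδ, rfl, rfl⟩
    exact h δ hδ
  have Rres : ∀ {a a' d d'}, R a a' → R d d' → R (El.res M.S a d) (El.res N.S a' d') := by
    rintro _ _ _ _ ⟨δ, hδ, rfl, rfl⟩ ⟨ε, hε, rfl, rfl⟩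
    exact ⟨.imp δ ε, Set.union_subset hδ hε, rfl, rfl⟩
  have Rmul : ∀ {a a' d d'}, R a a' → R d d' → R (El.mul M.S a d) (El.mul N.S a' d') := by
    rintro _ _ _ _ ⟨δ, hδ, rfl, rfl⟩ ⟨ε, hε, rfl, rfl⟩
    exact ⟨.mul δ ε, Set.union_subset hδ hε, rfl, rfl⟩
  have R0 : R El.zero El.zero := ⟨.f, Set.empty_subset _, rfl, rfl⟩
  have R1 : R El.one El.one := ⟨.e, Set.empty_subset _, rfl, rfl⟩
  have Rle : ∀ {a a' d d'}, R a a' → R d d' → (El.le a d ↔ El.le a' d') := by
    intro a a' d d' h1 h2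
    rw [← res_eq_one'' M.S, ← res_eq_one'' N.S]
    exact Rone (Rres h1 h2)
  have Rfun : ∀ {a a' d'}, R a a' → R a d' → a' = d' := fun h1 h2 =>
    El.le_antisymm' ((Rle h1 h2).1 (El.le_refl' _)) ((Rle h2 h1).1 (El.le_refl' _))
  have Rinj : ∀ {a d a'}, R a a' → R d a' → a = d := fun h1 h2 =>
    El.le_antisymm' ((Rle h1 h2).2 (El.le_refl' _)) ((Rle h2 h1).2 (El.le_refl' _))
  have Rrank : ∀ {a a'}, R a a' → a.rank = a'.rank := by
    intro a a' h1
    have h2 := Rres (Rres h1 R0) R0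
    exact rank_eq M.S N.S a a' (Rle h1 R0) (Rle R1 h1) (Rle h2 h1) (Rle (Rmul h2 h2) R0)
  obtain ⟨X, Y, T, i, k, j, l, hi, hj, hij, hkl, hT⟩ := amalgam M.S N.S
    (fun a a' => R (El.x a) (El.x a')) (fun a a' => R (El.y a) (El.y a'))
    (fun a b b' h1 h2 => El.x.inj (Rfun h1 h2)) (fun a a' b h1 h2 => El.x.inj (Rinj h1 h2))
    (fun a b b' h1 h2 => El.y.inj (Rfun h1 h2)) (fun a a' b h1 h2 => El.y.inj (Rinj h1 h2))
    (fun a a' d d' h1 h2 => Rmul h1 h2)
    (fun a a' d e' h1 h2 => by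
      have h3 := Rres h1 h2
      rw [res_x_y] at h3
      obtain ⟨d', h4, h5⟩ := res_x_y_spec N.S rfl (Rrank h3).symm
      rw [h4] at h3
      exact ⟨d', h3, h5⟩)
    (fun a a' e d' h1 h2 => by
      have h3 := Rres h1 h2
      rw [res_x_y] at h3
      obtain ⟨d, h4, h5⟩ := res_x_y_spec M.S rfl (Rrank h3)
      rw [h4] at h3
      exact ⟨d, h3, h5⟩)
  have key : ∀ n ∈ C ∩ D, mapE i k (M.v n) = mapE j l (N.v n) := by
    intro n hn
    have h1 : R (M.v n) (N.v n) := ⟨.var n, by rintro _ rfl; exact hn, rfl, rfl⟩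
    have h2 := Rrank h1
    revert h1 h2
    generalize M.v n = u
    generalize N.v n = w
    intro h1 h2
    cases u <;> cases w <;> simp [El.rank] at h2
    · rfl
    · exact congrArg El.y (hkl _ _ h1)
    · rfl
    · exact congrArg El.x (hij _ _ h1)
    · rfl
    · rfl
  refine ⟨⟨X, Y, ⟨i M.nx.some⟩, ⟨k M.ny.some⟩, T, hT P hP M.om N.om,
    fun n => if n ∈ C then mapE i k (M.v n) else mapE j l (N.v n)⟩, ?_, ?_⟩
  · intro φ hφ h1
    change evalE T (fun n => if n ∈ C then mapE i k (M.v n) else mapE j l (N.v n)) φ = El.one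
    rw [evalE_congr T (w := fun n => mapE i k (M.v n)) φ (fun n hn => if_pos (hφ hn)),
      map_eval hi, map_one]
    exact h1
  · intro φ hφ h1
    change evalE T (fun n => if n ∈ C then mapE i k (M.v n) else mapE j l (N.v n)) φ = El.one at h1
    rw [evalE_congr T (w := fun n => mapE j l (N.v n)) φ (fun n hn => by
      by_cases hC : n ∈ C
      · simp only [hC, if_true]
        exact key n ⟨hC, hφ hn⟩
      · simp only [hC, if_false]), map_eval hj, map_one] at h1
    exact h1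

theorem half_of_odd {p : ℕ} (hp : p.Prime) (hp2 : p ≠ 2) : ∃ h : ZMod p, h + h = 1 := by
  have : Fact p.Prime := ⟨hp⟩
  have h2 : (2 : ZMod p) ≠ 0 := by
    intro h
    have h3 : ((2 : ℕ) : ZMod p) = 0 := by exact_mod_cast h
    rw [ZMod.natCast_eq_zero_iff] at h3
    exact hp2 ((Nat.prime_dvd_prime_iff_eq hp Nat.prime_two).1 h3)
  refine ⟨2⁻¹, ?_⟩
  rw [← two_mul, mul_inv_cancel₀ h2]

/-- The logic of the class of `P` has deductive interpolation. -/
theorem dip {P : Set ℕ} (hP : ∀ p ∈ P, p.Prime ∧ p ≠ 2) : DIP (Cons P) :=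
  cons_dip (fun p hp => (hP p hp).1.ne_zero) (amalg_mod fun p hp => half_of_odd (hP p hp).1 (hP p hp).2)

/-- The system `(ℤ/p, ℤ/p, +)`. -/
def zsys (p : ℕ) : Sys (ZMod p) (ZMod p) where
  op a b := a + b
  comm a b := add_comm a b
  inj _ _ _ h := add_left_cancel h

theorem zsys_omits {P : Set ℕ} (hP : ∀ p ∈ P, p.Prime ∧ p ≠ 2) {p : ℕ} (hp : p.Prime)
    (hpP : p ∉ P) : Omits P (zsys p) := by
  rintro q hq ⟨z, hz, hz'⟩
  have hqp : q ≠ p := fun h => hpP (h ▸ hq)
  have : Fact q.Prime := ⟨(hP q hq).1⟩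
  have : Fact p.Prime := ⟨hp⟩
  change ∀ a b, z a + z b = z (a + b) + z 0 at hz'
  have h1 : ∀ n : ℕ, z n = n * (z 1 - z 0) + z 0 := by
    intro n
    induction n with
    | zero => simp
    | succ n ih =>
      have h2 := hz' n 1
      rw [Nat.cast_succ, Nat.cast_succ, add_mul, one_mul]
      linear_combination ih - h2
  have h2 := h1 q
  rw [ZMod.natCast_self] at h2
  have h3 : (q : ZMod p) ≠ 0 := by
    intro h
    rw [ZMod.natCast_eq_zero_iff] at h
    exact hqp ((Nat.prime_dvd_prime_iff_eq hp (hP q hq).1).1 h).symm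
  have h4 : z 1 = z 0 := by
    have h5 : (q : ZMod p) * (z 1 - z 0) = 0 := by linear_combination -h2
    rcases mul_eq_zero.1 h5 with h6 | h6
    · exact absurd h6 h3
    · exact sub_eq_zero.1 h6
  exact one_ne_zero (hz h4)

/-- equivalence -/
def iff' (φ ψ : Fml) : Fml := .and (.imp φ ψ) (.imp ψ φ)

/-- negation -/
def neg (φ : Fml) : Fml := .imp φ .f

theorem evalE_iff {X Y : Type} (S : Sys X Y) (v : ℕ → El X Y) (φ ψ : Fml) :
    evalE S v (iff' φ ψ) = El.one ↔ evalE S v φ = evalE S v ψ := by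
  rw [iff', evalE, inf_eq_one'', evalE, evalE, res_eq_one'', res_eq_one'']
  exact ⟨fun h => El.le_antisymm' h.1 h.2, fun h => by rw [h]; exact ⟨El.le_refl' _, El.le_refl' _⟩⟩

theorem nn_eq {X Y : Type} (S : Sys X Y) (v : ℕ → El X Y) (φ : Fml)
    (h1 : evalE S v (iff' φ (neg (neg φ))) ≠ El.one)
    (h2 : evalE S v (neg (.mul (neg (neg φ)) (neg (neg φ)))) ≠ El.one) :
    ∃ a, evalE S v φ = El.x a := by
  rw [ne_eq, evalE_iff, neg, neg, evalE, evalE] at h1
  rw [ne_eq, neg, neg, neg, evalE, evalE, evalE, evalE, res_eq_one''] at h2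
  revert h1 h2
  generalize evalE S v φ = u
  intro h1 h2
  cases u <;> simp_all [El.le, El.rank, El.res, El.mul, evalE]

theorem nn_eq' {X Y : Type} (S : Sys X Y) (v : ℕ → El X Y) (φ : Fml) (a : X)
    (h : evalE S v φ = El.x a) :
    evalE S v (iff' φ (neg (neg φ))) ≠ El.one ∧
      evalE S v (neg (.mul (neg (neg φ)) (neg (neg φ)))) ≠ El.one := by
  rw [ne_eq, evalE_iff, neg, neg, evalE, evalE, ne_eq, neg, evalE, evalE, evalE, evalE,
    res_eq_one'', h]
  simp [El.le, El.rank, El.res, El.mul, evalE]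

/-- The premises of the separating rule. -/
def prem (p : ℕ) : Set Fml :=
  {δ | ∃ a b : ZMod p, δ = iff' (.mul (.var a.val) (.var b.val)) (.mul (.var (a + b).val) (.var 0))}

/-- The conclusion of the separating rule. -/
noncomputable def concl (p : ℕ) [NeZero p] : Fml :=
  orL (((Finset.univ : Finset (ZMod p × ZMod p)).toList.map fun q =>
      if q.1 = q.2 then iff' (.var q.1.val) (neg (neg (.var q.1.val)))
        else iff' (.var q.1.val) (.var q.2.val)) ++
    (Finset.univ : Finset (ZMod p)).toList.map fun a =>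
      neg (.mul (neg (neg (.var a.val))) (neg (neg (.var a.val)))))

theorem rule_mem {P : Set ℕ} (p : ℕ) [NeZero p] (hp : p ∈ P) : Cons P (prem p) (concl p) := by
  intro M hM
  by_contra hc
  rw [concl, evalE_orL] at hc
  push Not at hc
  have h1 : ∀ a : ZMod p, ∃ u, M.v a.val = El.x u := by
    intro a
    refine nn_eq M.S M.v (.var a.val) ?_ ?_
    · refine hc _ (List.mem_append.2 (Or.inl (List.mem_map.2 ⟨(a, a), by simp, ?_⟩)))
      simp
    · exact hc _ (List.mem_append.2 (Or.inr (List.mem_map.2 ⟨a, by simp, rfl⟩)))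
  choose z hz using h1
  refine M.om p hp ⟨z, fun a b hab => ?_, fun a b => ?_⟩
  · by_contra hne
    refine hc (iff' (.var a.val) (.var b.val))
      (List.mem_append.2 (Or.inl (List.mem_map.2 ⟨(a, b), by simp, by simp [hne]⟩))) ?_
    rw [evalE_iff, evalE, evalE, hz, hz, hab]
  · have h2 := hM _ ⟨a, b, rfl⟩
    rw [evalE_iff, evalE, evalE, evalE, evalE, evalE, evalE, hz, hz, hz] at h2
    have h3 := hz 0
    rw [ZMod.val_zero] at h3
    rw [h3] at h2
    simpa [El.mul] using h2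

theorem rule_not_mem {P : Set ℕ} (hP : ∀ p ∈ P, p.Prime ∧ p ≠ 2) (p : ℕ) [NeZero p]
    (hp : p.Prime) (hpP : p ∉ P) : ¬ Cons P (prem p) (concl p) := by
  intro h
  have : Fact p.Prime := ⟨hp⟩
  have h1 := h ⟨ZMod p, ZMod p, ⟨0⟩, ⟨0⟩, zsys p, zsys_omits hP hp hpP, fun n => El.x (n : ZMod p)⟩ (by
    rintro γ ⟨a, b, rfl⟩
    rw [evalE_iff]
    simp [evalE, El.mul, zsys])
  rw [concl, evalE_orL] at h1
  obtain ⟨φ, hφ, h2⟩ := h1
  rcases List.mem_append.1 hφ with hφ | hφ
  · obtain ⟨⟨a, b⟩, -, rfl⟩ := List.mem_map.1 hφ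
    by_cases hab : a = b
    · simp only [hab, if_true] at h2
      exact (nn_eq' (zsys p) (fun n : ℕ => El.x (n : ZMod p)) (.var b.val) _ rfl).1 h2
    · simp only [hab, if_false] at h2
      rw [evalE_iff] at h2
      simp [evalE, hab] at h2
  · obtain ⟨a, -, rfl⟩ := List.mem_map.1 hφ
    exact (nn_eq' (zsys p) (fun n : ℕ => El.x (n : ZMod p)) (.var a.val) _ rfl).2 h2

/-- Different sets of odd primes give different logics. -/
theorem cons_inj {P Q : Set ℕ} (hP : ∀ p ∈ P, p.Prime ∧ p ≠ 2) (hQ : ∀ p ∈ Q, p.Prime ∧ p ≠ 2)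
    (h : Cons P = Cons Q) : P = Q := by
  ext p
  constructor
  · intro hp
    by_contra hq
    have : NeZero p := ⟨(hP p hp).1.ne_zero⟩
    refine rule_not_mem hQ p (hP p hp).1 hq ?_
    rw [← h]
    exact rule_mem p hp
  · intro hq
    by_contra hp
    have : NeZero p := ⟨(hQ p hq).1.ne_zero⟩
    refine rule_not_mem hP p (hQ p hq).1 hp ?_
    rw [h]
    exact rule_mem p hq

end Pool.Agent.Q217.FL
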