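import Pool.Agent.Q217.FL.Defs

set_option autoImplicit false

/-!
# The algebras `A(X, Y, ∗)`
-/

namespace Pool.Agent.Q217.FL

/-- A commutative operation `X × X → Y` that is injective in each variable. -/
structure Sys (X Y : Type) where
  /-- The operation. -/
  op : X → X → Y
  comm : ∀ a b, op a b = op b a
  inj : ∀ a b c, op a b = op a c → b = c

/-- The elements of the algebra. -/
inductive El (X Y : Type) : Type
  | zero : El X Y
  | y : Y → El X Y
  | b : El X Y
  | x : X → El X Y
  | c : El X Y
  | one : El X Y

/-- The type of the elements of the algebra of the system `S`. -/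
def Alg {X Y : Type} (_S : Sys X Y) : Type := El X Y

namespace El

variable {X Y : Type}

/-- The level of an element. -/
def rank : El X Y → ℕ
  | zero => 0
  | y _ => 1
  | b => 2
  | x _ => 3
  | c => 4
  | one => 5

/-- The order. -/
def le (u w : El X Y) : Prop := u = w ∨ u.rank < w.rank

open Classical in
/-- The supremum. -/
noncomputable def sup (u w : El X Y) : El X Y :=
  if le u w then w else if le w u then u else if u.rank = 1 then b else c

open Classical in
/-- The infimum. -/
noncomputable def inf (u w : El X Y) : El X Y :=
  if le u w then u else if le w u then w else if u.rank = 1 then zero else b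

/-- The product. -/
def mul (S : Sys X Y) : El X Y → El X Y → El X Y
  | one, w => w
  | u, one => u
  | x a, x a' => y (S.op a a')
  | x _, c => b
  | c, x _ => b
  | c, c => b
  | _, _ => zero

open Classical in
/-- The residual. -/
noncomputable def res (S : Sys X Y) (u w : El X Y) : El X Y :=
  if le u w then one else if u = one then w else if u.rank ≤ 2 ∨ 2 ≤ w.rank then c else
    if h : ∃ a a', u = x a ∧ w = y (S.op a a') then x h.choose_spec.choose else b

theorem le_iff {u w : El X Y} : le u w ↔ u = w ∨ u.rank < w.rank := Iff.rfl

theorem eq_of_rank {u w : El X Y} (h : u.rank = w.rank) (h1 : u.rank ≠ 1) (h3 : u.rank ≠ 3) :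
    u = w := by
  cases u <;> cases w <;> simp_all [rank]

theorem le_refl' (u : El X Y) : le u u := Or.inl rfl

theorem le_trans' {u v w : El X Y} (h1 : le u v) (h2 : le v w) : le u w := by
  rcases h1 with rfl | h1
  · exact h2
  · rcases h2 with rfl | h2
    · exact Or.inr h1
    · exact Or.inr (h1.trans h2)

theorem le_antisymm' {u v : El X Y} (h1 : le u v) (h2 : le v u) : u = v := by
  rcases h1 with rfl | h1
  · rfl
  · rcases h2 with rfl | h2
    · rfl
    · omega

theorem rank_of_not_le {u w : El X Y} (h1 : ¬ le u w) (h2 : ¬ le w u) :
    u.rank = w.rank ∧ (u.rank = 1 ∨ u.rank = 3) ∧ u ≠ w := by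
  rw [le_iff] at h1 h2
  push Not at h1 h2
  have h : u.rank = w.rank := by omega
  refine ⟨h, ?_, h1.1⟩
  by_contra hc
  push Not at hc
  exact h1.1 (eq_of_rank h hc.1 hc.2)

theorem le_sup_left' (u w : El X Y) : le u (sup u w) := by
  unfold sup
  split_ifs with h1 h2 h3
  · exact h1
  · exact le_refl' _
  · exact Or.inr (by rw [h3]; simp [rank])
  · obtain ⟨-, h4, -⟩ := rank_of_not_le h1 h2
    have : u.rank = 3 := by tauto
    exact Or.inr (by rw [this]; simp [rank])

theorem le_sup_right' (u w : El X Y) : le w (sup u w) := by
  unfold sup
  split_ifs with h1 h2 h3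
  · exact le_refl' _
  · exact h2
  · obtain ⟨h4, -, -⟩ := rank_of_not_le h1 h2
    exact Or.inr (by rw [← h4, h3]; simp [rank])
  · obtain ⟨h5, h4, -⟩ := rank_of_not_le h1 h2
    have : u.rank = 3 := by tauto
    exact Or.inr (by rw [← h5, this]; simp [rank])

theorem sup_le' {u v w : El X Y} (h1 : le u w) (h2 : le v w) : le (sup u v) w := by
  unfold sup
  split_ifs with h3 h4 h5
  · exact h2
  · exact h1
  · -- both of rank 1, distinct
    obtain ⟨h6, -, h7⟩ := rank_of_not_le h3 h4
    have h8 : 1 < w.rank := by
      rcases h1 with rfl | h1
      · rcases h2 with rfl | h2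
        · exact absurd rfl h7
        · omega
      · omega
    rcases Nat.lt_or_ge 2 w.rank with h9 | h9
    · exact Or.inr h9
    · left
      have : (b : El X Y).rank = w.rank := by
        change 2 = w.rank
        omega
      exact eq_of_rank this (by simp [rank]) (by simp [rank])
  · obtain ⟨h6, h6', h7⟩ := rank_of_not_le h3 h4
    have h10 : u.rank = 3 := by tauto
    have h8 : 3 < w.rank := by
      rcases h1 with rfl | h1
      · rcases h2 with rfl | h2
        · exact absurd rfl h7
        · omega
      · omega
    rcases Nat.lt_or_ge 4 w.rank with h9 | h9
    · exact Or.inr h9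
    · left
      have : (c : El X Y).rank = w.rank := by
        change 4 = w.rank
        omega
      exact eq_of_rank this (by simp [rank]) (by simp [rank])

theorem inf_le_left' (u w : El X Y) : le (inf u w) u := by
  unfold inf
  split_ifs with h1 h2 h3
  · exact le_refl' _
  · exact h2
  · exact Or.inr (by rw [h3]; simp [rank])
  · obtain ⟨-, h4, -⟩ := rank_of_not_le h1 h2
    have : u.rank = 3 := by tauto
    exact Or.inr (by rw [this]; simp [rank])

theorem inf_le_right' (u w : El X Y) : le (inf u w) w := by
  unfold inf
  split_ifs with h1 h2 h3
  · exact h1
  · exact le_refl' _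
  · obtain ⟨h4, -, -⟩ := rank_of_not_le h1 h2
    exact Or.inr (by rw [← h4, h3]; simp [rank])
  · obtain ⟨h5, h4, -⟩ := rank_of_not_le h1 h2
    have : u.rank = 3 := by tauto
    exact Or.inr (by rw [← h5, this]; simp [rank])

theorem le_inf' {u v w : El X Y} (h1 : le w u) (h2 : le w v) : le w (inf u v) := by
  unfold inf
  split_ifs with h3 h4 h5
  · exact h1
  · exact h2
  · obtain ⟨h6, -, h7⟩ := rank_of_not_le h3 h4
    have h8 : w.rank < 1 := by
      rcases h1 with rfl | h1
      · rcases h2 with rfl | h2
        · exact absurd rfl h7
        · omega
      · omega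
    left
    have : w.rank = (zero : El X Y).rank := by
      change w.rank = 0
      omega
    exact eq_of_rank this (by omega) (by omega)
  · obtain ⟨h6, h6', h7⟩ := rank_of_not_le h3 h4
    have h10 : u.rank = 3 := by tauto
    have h8 : w.rank < 3 := by
      rcases h1 with rfl | h1
      · rcases h2 with rfl | h2
        · exact absurd rfl h7
        · omega
      · omega
    rcases Nat.lt_or_ge w.rank 2 with h9 | h9
    · exact Or.inr h9
    · left
      have : w.rank = (b : El X Y).rank := by
        change w.rank = 2
        omega
      exact eq_of_rank this (by omega) (by omega)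

theorem mul_comm' (S : Sys X Y) (u w : El X Y) : mul S u w = mul S w u := by
  cases u <;> cases w <;> simp [mul, S.comm]

theorem mul_assoc' (S : Sys X Y) (u v w : El X Y) :
    mul S (mul S u v) w = mul S u (mul S v w) := by
  cases u <;> cases v <;> cases w <;> rfl

theorem one_mul' (S : Sys X Y) (u : El X Y) : mul S one u = u := by
  cases u <;> rfl

/-- Products of two nonunits. -/
theorem mul_rank_le (S : Sys X Y) {u w : El X Y} (hu : u ≠ one) (hw : w ≠ one) :
    (mul S u w).rank ≤ 2 := by
  cases u <;> cases w <;> simp_all [mul, rank]

theorem mul_eq_zero (S : Sys X Y) {u w : El X Y} (hu : u.rank ≤ 2) (hw : w ≠ one) :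
    mul S u w = zero := by
  cases u <;> cases w <;> simp_all [mul, rank]

theorem res_spec (S : Sys X Y) (u v w : El X Y) : le (mul S u v) w ↔ le v (res S u w) := by
  unfold res
  by_cases h1 : le u w
  · rw [if_pos h1]
    refine ⟨fun _ => ?_, fun _ => ?_⟩
    · cases v <;> simp [le, rank]
    · refine le_trans' ?_ h1
      cases u <;> cases v <;> simp [mul, le, rank]
  · rw [if_neg h1]
    by_cases h2 : u = one
    · subst h2
      rw [if_pos rfl, one_mul']
    · rw [if_neg h2]
      have hv1 : v = one → ¬ le (mul S u v) w := by
        rintro rfl
        rw [mul_comm', one_mul']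
        exact h1
      by_cases h3 : u.rank ≤ 2 ∨ 2 ≤ w.rank
      · rw [if_pos h3]
        by_cases hv : v = one
        · refine ⟨fun h => absurd h (hv1 hv), fun h => ?_⟩
          subst hv
          simp [le, rank] at h
        · refine ⟨fun _ => ?_, fun _ => ?_⟩
          · cases v <;> simp_all [le, rank]
          · rcases h3 with h3 | h3
            · rw [mul_eq_zero S h3 hv]
              cases w <;> simp [le, rank]
            · have h4 := mul_rank_le S h2 hv
              rcases Nat.lt_or_ge (mul S u v).rank w.rank with h5 | h5
              · exact Or.inr h5
              · left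
                exact eq_of_rank (by omega) (by omega) (by omega)
      · rw [if_neg h3]
        push Not at h3
        obtain ⟨h3, h4⟩ := h3
        by_cases h5 : ∃ a a', u = x a ∧ w = y (S.op a a')
        · rw [dif_pos h5]
          have h6 : u = x h5.choose ∧ w = y (S.op h5.choose h5.choose_spec.choose) :=
            h5.choose_spec.choose_spec
          generalize h5.choose_spec.choose = a' at h6 ⊢
          generalize h5.choose = a at h6
          obtain ⟨rfl, rfl⟩ := h6
          cases v with
          | zero => simp [mul, le, rank]
          | y d => simp [mul, le, rank]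
          | b => simp [mul, le, rank]
          | x d =>
            simp only [mul, le, rank, lt_irrefl, or_false, y.injEq, x.injEq]
            exact ⟨fun h => S.inj _ _ _ h, fun h => by rw [h]⟩
          | c => simp [mul, le, rank]
          | one => simp [mul, le, rank]
        · rw [dif_neg h5]
          push Not at h5
          cases u with
          | zero => simp [rank] at h3
          | y d => simp [rank] at h3
          | b => simp [rank] at h3
          | one => exact absurd rfl h2
          | x a =>
            cases w with
            | zero => cases v <;> simp [mul, le, rank]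
            | y d =>
              cases v with
              | x a' =>
                simp only [mul, le, rank, lt_irrefl, or_false, y.injEq, reduceCtorEq, false_or,
                  Nat.reduceLT]
                simp only [iff_false]
                intro h
                exact h5 a a' rfl (by rw [h])
              | _ => simp [mul, le, rank]
            | b => simp [rank] at h4
            | x d => simp [rank] at h4
            | c => simp [rank] at h4
            | one => simp [rank] at h4
          | c =>
            cases w with
            | zero => cases v <;> simp [mul, le, rank]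
            | y d => cases v <;> simp [mul, le, rank]
            | b => simp [rank] at h4
            | x d => simp [rank] at h4
            | c => simp [rank] at h4
            | one => simp [rank] at h4

end El

variable {X Y : Type}

noncomputable instance (S : Sys X Y) : FLewAlgebra (Alg S) where
  le u w := El.le u w
  le_refl := El.le_refl'
  le_trans _ _ _ h1 h2 := El.le_trans' h1 h2
  le_antisymm _ _ h1 h2 := El.le_antisymm' h1 h2
  sup := El.sup
  inf := El.inf
  le_sup_left := El.le_sup_left'
  le_sup_right := El.le_sup_right'
  sup_le _ _ _ h1 h2 := El.sup_le' h1 h2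
  inf_le_left := El.inf_le_left'
  inf_le_right := El.inf_le_right'
  le_inf _ _ _ h1 h2 := El.le_inf' h1 h2
  top := El.one
  le_top u := by cases u <;> simp [El.le, El.rank]
  bot := El.zero
  bot_le u := by cases u <;> simp [El.le, El.rank]
  mul := El.mul S
  mul_assoc := El.mul_assoc' S
  one := El.one
  one_mul := El.one_mul' S
  mul_one u := by
    change El.mul S u El.one = u
    rw [El.mul_comm', El.one_mul']
  mul_comm := El.mul_comm' S
  res := El.res S
  one_eq_top := rfl
  mul_le_iff u v w := El.res_spec S u v w

end Pool.Agent.Q217.FL
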