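import Pool.Agent.Q217.FL.Ultra

set_option autoImplicit false

/-!
# The logics `L_P`
-/

namespace Pool.Agent.Q217.FL

/-- The consequence relation of the class of `P`. -/
def Cons (P : Set ℕ) (Γ : Set Fml) (φ : Fml) : Prop :=
  ∀ M : Mod P, (∀ γ ∈ Γ, evalE M.S M.v γ = El.one) → evalE M.S M.v φ = El.one

/-- Conjunctions of lists. -/
def andL : List Fml → Fml
  | [] => .e
  | φ :: l => .and φ (andL l)

/-- Disjunctions of lists. -/
def orL : List Fml → Fml
  | [] => .f
  | φ :: l => .or φ (orL l)

/-- `φ³ → ψ` -/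
def imp3 (φ ψ : Fml) : Fml := .imp (.mul φ (.mul φ φ)) ψ

theorem inf_eq_one'' {X Y : Type} {u w : El X Y} :
    El.inf u w = El.one ↔ u = El.one ∧ w = El.one := by
  constructor
  · intro h
    have h1 : El.le El.one u := by rw [← h]; exact El.inf_le_left' u w
    have h2 : El.le El.one w := by rw [← h]; exact El.inf_le_right' u w
    constructor
    · cases u <;> simp_all [El.le, El.rank]
    · cases w <;> simp_all [El.le, El.rank]
  · rintro ⟨rfl, rfl⟩
    exact El.le_antisymm' (El.inf_le_left' _ _) (El.le_inf' (El.le_refl' _) (El.le_refl' _))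

theorem sup_eq_one'' {X Y : Type} {u w : El X Y} :
    El.sup u w = El.one ↔ u = El.one ∨ w = El.one := by
  constructor
  · intro h
    by_contra hc
    push Not at hc
    have h1 : El.le u El.c := by
      cases u <;> simp_all [El.le, El.rank]
    have h2 : El.le w El.c := by
      cases w <;> simp_all [El.le, El.rank]
    have h3 := El.sup_le' h1 h2
    rw [h] at h3
    simp [El.le, El.rank] at h3
  · rintro (rfl | rfl)
    · have h := El.le_sup_left' (El.one : El X Y) w
      revert h
      generalize El.sup El.one w = s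
      intro h
      cases s <;> simp_all [El.le, El.rank]
    · have h := El.le_sup_right' u (El.one : El X Y)
      revert h
      generalize El.sup u El.one = s
      intro h
      cases s <;> simp_all [El.le, El.rank]

theorem res_eq_one'' {X Y : Type} (S : Sys X Y) {u w : El X Y} :
    El.res S u w = El.one ↔ El.le u w := by
  have h := El.res_spec S u El.one w
  rw [El.mul_comm', El.one_mul'] at h
  rw [h]
  generalize El.res S u w = r
  cases r <;> simp [El.le, El.rank]

open Classical in
theorem cube {X Y : Type} (S : Sys X Y) (u : El X Y) :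
    El.mul S u (El.mul S u u) = if u = El.one then El.one else El.zero := by
  cases u <;> simp [El.mul]

theorem evalE_andL {X Y : Type} (S : Sys X Y) (v : ℕ → El X Y) (l : List Fml) :
    evalE S v (andL l) = El.one ↔ ∀ φ ∈ l, evalE S v φ = El.one := by
  induction l with
  | nil => simp [andL, evalE]
  | cons φ l ih => rw [andL, evalE, inf_eq_one'', ih]; simp

theorem evalE_orL {X Y : Type} (S : Sys X Y) (v : ℕ → El X Y) (l : List Fml) :
    evalE S v (orL l) = El.one ↔ ∃ φ ∈ l, evalE S v φ = El.one := by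
  induction l with
  | nil => simp [orL, evalE]
  | cons φ l ih => rw [orL, evalE, sup_eq_one'', ih]; simp

open Classical in
theorem evalE_imp3 {X Y : Type} (S : Sys X Y) (v : ℕ → El X Y) (φ ψ : Fml) :
    evalE S v (imp3 φ ψ) = El.one ↔ (evalE S v φ = El.one → evalE S v ψ = El.one) := by
  rw [imp3, evalE, evalE, evalE, res_eq_one'', cube]
  by_cases h : evalE S v φ = El.one
  · rw [if_pos h]
    simp only [h, forall_const]
    generalize evalE S v ψ = r
    cases r <;> simp [El.le, El.rank]
  · rw [if_neg h]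
    simp only [h, false_imp_iff, iff_true]
    generalize evalE S v ψ = r
    cases r <;> simp [El.le, El.rank]

theorem eval_andL {A : Type} [FLewAlgebra A] (v : ℕ → A) (l : List Fml) :
    eval v (andL l) = 1 ↔ ∀ φ ∈ l, eval v φ = 1 := by
  induction l with
  | nil => simp [andL, eval]
  | cons φ l ih => rw [andL, eval, inf_eq_one, ih]; simp

theorem vars_andL {C : Set ℕ} {l : List Fml} (h : ∀ φ ∈ l, φ.vars ⊆ C) : (andL l).vars ⊆ C := by
  induction l with
  | nil => simp [andL, Fml.vars]
  | cons φ l ih =>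
    rw [andL, Fml.vars]
    exact Set.union_subset (h φ (by simp)) (ih fun ψ hψ => h ψ (by simp [hψ]))

theorem vars_orL {C : Set ℕ} {l : List Fml} (h : ∀ φ ∈ l, φ.vars ⊆ C) : (orL l).vars ⊆ C := by
  induction l with
  | nil => simp [orL, Fml.vars]
  | cons φ l ih =>
    rw [orL, Fml.vars]
    exact Set.union_subset (h φ (by simp)) (ih fun ψ hψ => h ψ (by simp [hψ]))

theorem vars_imp3 {C : Set ℕ} {φ ψ : Fml} (h1 : φ.vars ⊆ C) (h2 : ψ.vars ⊆ C) :
    (imp3 φ ψ).vars ⊆ C :=
  Set.union_subset (Set.union_subset h1 (Set.union_subset h1 h1)) h2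

theorem evalE_subst {X Y : Type} (S : Sys X Y) (v : ℕ → El X Y) (s : ℕ → Fml) (φ : Fml) :
    evalE S v (φ.subst s) = evalE S (fun n => evalE S v (s n)) φ := by
  have h := eval_subst (A := Alg S) v s φ
  have h1 : (fun n => eval (A := Alg S) v (s n)) = fun n => evalE S v (s n) := by
    funext n
    exact eval_eq S v (s n)
  have h2 := (eval_eq S v (φ.subst s)).symm.trans h
  rw [h1] at h2
  exact h2.trans (eval_eq S _ φ)

theorem evalE_congr {X Y : Type} (S : Sys X Y) {v w : ℕ → El X Y} (φ : Fml)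
    (h : ∀ n ∈ φ.vars, v n = w n) : evalE S v φ = evalE S w φ := by
  have h := eval_congr (A := Alg S) (v := v) (w := w) φ h
  rwa [eval_eq, eval_eq] at h

/-- The logic of the class of `P` is an axiomatic extension of `FL_ew`. -/
theorem cons_ext {P : Set ℕ} (hP : ∀ p ∈ P, p ≠ 0) : AxiomaticExtension (Cons P) := by
  classical
  refine ⟨{α | ∀ M : Mod P, evalE M.S M.v α = El.one}, fun α hα s M => ?_, fun Γ φ => ⟨?_, ?_⟩⟩
  · rw [evalE_subst]
    exact hα ⟨M.X, M.Y, M.nx, M.ny, M.S, M.om, fun n => evalE M.S M.v (s n)⟩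
  · intro h A _ v hv
    -- compactness
    have h1 : ∃ F : Finset Fml, ∀ M : Mod P,
        (∀ ψ ∈ F, ψ ∈ Γ → evalE M.S M.v ψ = El.one) → evalE M.S M.v φ = El.one := by
      by_contra hc
      push Not at hc
      obtain ⟨M, hM1, hM2⟩ := compactness hP Γ {φ} (by
        intro F
        obtain ⟨M, hM1, hM2⟩ := hc F
        refine ⟨M, fun ψ hψ => ⟨hM1 ψ hψ, fun h3 => ?_⟩⟩
        rw [Set.mem_singleton_iff.1 h3]
        exact hM2)
      exact hM2 φ rfl (h M hM1)
    obtain ⟨F, hF⟩ := h1
    have h2 : imp3 (andL (F.filter (· ∈ Γ)).toList) φ ∈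
        {α | ∀ M : Mod P, evalE M.S M.v α = El.one} := by
      intro M
      rw [evalE_imp3, evalE_andL]
      intro h3
      refine hF M fun ψ hψ hψ' => h3 ψ ?_
      rw [Finset.mem_toList, Finset.mem_filter]
      exact ⟨hψ, hψ'⟩
    have h3 := hv _ (Or.inr h2)
    have h4 : eval v (andL (F.filter (· ∈ Γ)).toList) = 1 := by
      rw [eval_andL]
      intro ψ hψ
      rw [Finset.mem_toList, Finset.mem_filter] at hψ
      exact hv ψ (Or.inl hψ.2)
    rw [imp3, eval, eval, eval, h4, mul_one, mul_one, res_eq_one, one_le_iff''] at h3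
    exact h3
  · intro h M hM
    have := h (Alg M.S) inferInstance M.v (by
      intro γ hγ
      rw [eval_eq]
      rcases hγ with hγ | hγ
      · exact hM γ hγ
      · exact hγ M)
    rw [eval_eq] at this
    exact this

/-- Amalgamation implies deductive interpolation. -/
theorem cons_dip {P : Set ℕ} (hP : ∀ p ∈ P, p ≠ 0)
    (amalg : ∀ (C D : Set ℕ) (M N : Mod P),
      (∀ δ : Fml, δ.vars ⊆ C ∩ D → (evalE M.S M.v δ = El.one ↔ evalE N.S N.v δ = El.one)) →
      ∃ T : Mod P, (∀ φ : Fml, φ.vars ⊆ C → evalE M.S M.v φ = El.one →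
          evalE T.S T.v φ = El.one) ∧
        ∀ φ : Fml, φ.vars ⊆ D → evalE T.S T.v φ = El.one → evalE N.S N.v φ = El.one) :
    DIP (Cons P) := by
  classical
  intro Γ φ hΓφ
  refine ⟨{δ | δ.vars ⊆ varsOf Γ ∩ φ.vars ∧ Cons P Γ δ}, ?_, fun δ hδ => hδ.2, ?_⟩
  · rintro n ⟨δ, hδ, hn⟩
    exact hδ.1 hn
  · intro N hN
    by_contra hc
    obtain ⟨M, hM1, hM2⟩ := compactness hP
      (Γ ∪ {δ | δ.vars ⊆ varsOf Γ ∩ φ.vars ∧ evalE N.S N.v δ = El.one})
      {δ | δ.vars ⊆ varsOf Γ ∩ φ.vars ∧ evalE N.S N.v δ ≠ El.one} (by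
        intro F
        by_contra hF
        push Not at hF
        set θ := andL (F.filter fun δ => δ.vars ⊆ varsOf Γ ∩ φ.vars ∧
          evalE N.S N.v δ = El.one).toList with hθ
        set η := orL (F.filter fun δ => δ.vars ⊆ varsOf Γ ∩ φ.vars ∧
          evalE N.S N.v δ ≠ El.one).toList with hη
        have h1 : Cons P Γ (imp3 θ η) := by
          intro M hM
          rw [evalE_imp3, hθ, hη, evalE_andL, evalE_orL]
          intro h2
          obtain ⟨ψ, hψ, h3⟩ := hF M
          by_cases h4 : ψ ∈ {δ | δ.vars ⊆ varsOf Γ ∩ φ.vars ∧ evalE N.S N.v δ ≠ El.one} ∧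
              evalE M.S M.v ψ = El.one
          · refine ⟨ψ, ?_, h4.2⟩
            rw [Finset.mem_toList, Finset.mem_filter]
            exact ⟨hψ, h4.1⟩
          · exfalso
            have h5 : ψ ∈ Γ ∪ {δ | δ.vars ⊆ varsOf Γ ∩ φ.vars ∧ evalE N.S N.v δ = El.one} →
                evalE M.S M.v ψ = El.one := by
              rintro (h5 | h5)
              · exact hM ψ h5
              · refine h2 ψ ?_
                rw [Finset.mem_toList, Finset.mem_filter]
                exact ⟨hψ, h5⟩
            obtain ⟨h6, h7⟩ := h3 h5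
            exact h4 ⟨h6, h7⟩
        have h2 : evalE N.S N.v (imp3 θ η) = El.one := by
          refine hN _ ⟨vars_imp3 (vars_andL ?_) (vars_orL ?_), h1⟩
          · intro δ hδ
            rw [Finset.mem_toList, Finset.mem_filter] at hδ
            exact hδ.2.1
          · intro δ hδ
            rw [Finset.mem_toList, Finset.mem_filter] at hδ
            exact hδ.2.1
        rw [evalE_imp3, hθ, hη, evalE_andL, evalE_orL] at h2
        obtain ⟨ψ, h3, h4⟩ := h2 (by
          intro ψ hψ
          rw [Finset.mem_toList, Finset.mem_filter] at hψ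
          exact hψ.2.2)
        rw [Finset.mem_toList, Finset.mem_filter] at h3
        exact h3.2.2 h4)
    obtain ⟨T, hT1, hT2⟩ := amalg (varsOf Γ) φ.vars M N (by
      intro δ hδ
      constructor
      · intro h1
        by_contra h2
        exact hM2 δ ⟨hδ, h2⟩ h1
      · intro h1
        exact hM1 δ (Or.inr ⟨hδ, h1⟩))
    refine hc (hT2 φ subset_rfl (hΓφ T fun γ hγ => hT1 γ ?_ (hM1 γ (Or.inl hγ))))
    intro n hn
    exact ⟨γ, hγ, hn⟩

end Pool.Agent.Q217.FL
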