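import Pool.Agent.Q217.FL.El

set_option autoImplicit false

/-!
# The classes `K_P`, ultraproducts, compactness
-/

namespace Pool.Agent.Q217.FL

/-- The system does not contain `(ℤ/p, ℤ/p, +)` for `p ∈ P`. -/
def Omits (P : Set ℕ) {X Y : Type} (S : Sys X Y) : Prop :=
  ∀ p ∈ P, ¬ ∃ z : ZMod p → X, Function.Injective z ∧
    ∀ a b, S.op (z a) (z b) = S.op (z (a + b)) (z 0)

/-- A system in the class of `P` with a valuation. -/
structure Mod (P : Set ℕ) where
  /-- first sort -/
  X : Type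
  /-- second sort -/
  Y : Type
  nx : Nonempty X
  ny : Nonempty Y
  /-- the system -/
  S : Sys X Y
  om : Omits P S
  /-- the valuation -/
  v : ℕ → El X Y

/-- The value of a formula in the algebra of a system. -/
noncomputable def evalE {X Y : Type} (S : Sys X Y) (v : ℕ → El X Y) : Fml → El X Y
  | .var n => v n
  | .and φ ψ => El.inf (evalE S v φ) (evalE S v ψ)
  | .or φ ψ => El.sup (evalE S v φ) (evalE S v ψ)
  | .mul φ ψ => El.mul S (evalE S v φ) (evalE S v ψ)
  | .imp φ ψ => El.res S (evalE S v φ) (evalE S v ψ)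
  | .e => El.one
  | .f => El.zero

theorem eval_eq {X Y : Type} (S : Sys X Y) (v : ℕ → El X Y) (φ : Fml) :
    eval (A := Alg S) v φ = evalE S v φ := by
  induction φ with
  | var n => rfl
  | and φ ψ ih1 ih2 =>
    change El.inf (eval (A := Alg S) v φ) (eval (A := Alg S) v ψ) = _
    rw [ih1, ih2, evalE]
  | or φ ψ ih1 ih2 =>
    change El.sup (eval (A := Alg S) v φ) (eval (A := Alg S) v ψ) = _
    rw [ih1, ih2, evalE]
  | mul φ ψ ih1 ih2 =>
    change El.mul S (eval (A := Alg S) v φ) (eval (A := Alg S) v ψ) = _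
    rw [ih1, ih2, evalE]
  | imp φ ψ ih1 ih2 =>
    change El.res S (eval (A := Alg S) v φ) (eval (A := Alg S) v ψ) = _
    rw [ih1, ih2, evalE]
  | e => rfl
  | f => rfl

theorem El.le_inf_iff'' {X Y : Type} {u v w : El X Y} :
    El.le w (El.inf u v) ↔ El.le w u ∧ El.le w v :=
  ⟨fun h => ⟨El.le_trans' h (El.inf_le_left' u v), El.le_trans' h (El.inf_le_right' u v)⟩,
    fun h => El.le_inf' h.1 h.2⟩

theorem El.sup_le_iff'' {X Y : Type} {u v w : El X Y} :
    El.le (El.sup u v) w ↔ El.le u w ∧ El.le v w :=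
  ⟨fun h => ⟨El.le_trans' (El.le_sup_left' u v) h, El.le_trans' (El.le_sup_right' u v) h⟩,
    fun h => El.sup_le' h.1 h.2⟩

theorem El.eq_of_le_iff {X Y : Type} {u v : El X Y} (h : ∀ w, El.le w u ↔ El.le w v) : u = v :=
  El.le_antisymm' ((h u).1 (El.le_refl' u)) ((h v).2 (El.le_refl' v))

theorem El.eq_of_ge_iff {X Y : Type} {u v : El X Y} (h : ∀ w, El.le u w ↔ El.le v w) : u = v :=
  El.le_antisymm' ((h v).2 (El.le_refl' v)) ((h u).1 (El.le_refl' u))

section laws

variable {A : Type} [FLewAlgebra A]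

theorem mul_le_mul_left'' {a b : A} (c : A) (h : a ≤ b) : c * a ≤ c * b :=
  (FLewAlgebra.mul_le_iff c a (c * b)).2
    (h.trans ((FLewAlgebra.mul_le_iff c b (c * b)).1 le_rfl))

theorem le_one'' (a : A) : a ≤ 1 := by
  rw [FLewAlgebra.one_eq_top]
  exact le_top

theorem one_le_iff'' {a : A} : 1 ≤ a ↔ a = 1 :=
  ⟨fun h => le_antisymm (le_one'' a) h, fun h => h ▸ le_rfl⟩

theorem res_eq_one {a b : A} : FLewAlgebra.res a b = 1 ↔ a ≤ b := by
  rw [← one_le_iff'', ← FLewAlgebra.mul_le_iff, mul_one]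

theorem inf_eq_one {a b : A} : a ⊓ b = 1 ↔ a = 1 ∧ b = 1 := by
  rw [← one_le_iff'', le_inf_iff, one_le_iff'', one_le_iff'']

end laws

section ultra

variable {ι : Type} (U : Ultrafilter ι) {X Y : ι → Type} (S : ∀ i, Sys (X i) (Y i))

/-- The ultraproduct of a family of types. -/
abbrev UP (Z : ι → Type) : Type := Quotient ((U : Filter ι).productSetoid Z)

theorem up_eq {Z : ι → Type} {f g : ∀ i, Z i} :
    (Quotient.mk _ f : UP U Z) = Quotient.mk _ g ↔ ∀ᶠ i in (U : Filter ι), f i = g i :=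
  Quotient.eq

/-- The ultraproduct of systems. -/
def upSys : Sys (UP U X) (UP U Y) where
  op := Quotient.map₂ (fun f g i => (S i).op (f i) (g i)) (by
    intro f f' hf g g' hg
    change ∀ᶠ i in (U : Filter ι), _
    filter_upwards [hf, hg] with i h1 h2
    rw [h1, h2])
  comm := by
    intro a b
    induction a using Quotient.inductionOn with | _ f => ?_
    induction b using Quotient.inductionOn with | _ g => ?_
    refine (up_eq U).2 (Filter.Eventually.of_forall fun i => ?_)
    exact (S i).comm _ _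
  inj := by
    intro a b c
    induction a using Quotient.inductionOn with | _ f => ?_
    induction b using Quotient.inductionOn with | _ g => ?_
    induction c using Quotient.inductionOn with | _ h => ?_
    intro hh
    have h1 := (up_eq U).1 hh
    refine (up_eq U).2 ?_
    filter_upwards [h1] with i h2
    exact (S i).inj _ _ _ h2

theorem upSys_op (f g : ∀ i, X i) :
    (upSys U S).op (Quotient.mk _ f) (Quotient.mk _ g) =
      Quotient.mk _ (fun i => (S i).op (f i) (g i)) := rfl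

/-- The evaluation of a uniform element at `i`. -/
def ev (e : El (∀ i, X i) (∀ i, Y i)) (i : ι) : El (X i) (Y i) :=
  match e with
  | .zero => .zero
  | .y d => .y (d i)
  | .b => .b
  | .x a => .x (a i)
  | .c => .c
  | .one => .one

/-- The class of a uniform element. -/
def cls (e : El (∀ i, X i) (∀ i, Y i)) : El (UP U X) (UP U Y) :=
  match e with
  | .zero => .zero
  | .y d => .y (Quotient.mk _ d)
  | .b => .b
  | .x a => .x (Quotient.mk _ a)
  | .c => .c
  | .one => .one

theorem cls_surj (a : El (UP U X) (UP U Y)) : ∃ e, cls U e = a := by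
  match a with
  | .zero => exact ⟨.zero, rfl⟩
  | .y d =>
    induction d using Quotient.inductionOn with | _ f => ?_
    exact ⟨.y f, rfl⟩
  | .b => exact ⟨.b, rfl⟩
  | .x d =>
    induction d using Quotient.inductionOn with | _ f => ?_
    exact ⟨.x f, rfl⟩
  | .c => exact ⟨.c, rfl⟩
  | .one => exact ⟨.one, rfl⟩

theorem el_cases {X Y : Type} (a : El X Y) :
    a = El.zero ∨ (∃ d, a = El.y d) ∨ a = El.b ∨ (∃ d, a = El.x d) ∨ a = El.c ∨ a = El.one := by
  match a with
  | .zero => exact Or.inl rfl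
  | .y d => exact Or.inr (Or.inl ⟨d, rfl⟩)
  | .b => exact Or.inr (Or.inr (Or.inl rfl))
  | .x d => exact Or.inr (Or.inr (Or.inr (Or.inl ⟨d, rfl⟩)))
  | .c => exact Or.inr (Or.inr (Or.inr (Or.inr (Or.inl rfl))))
  | .one => exact Or.inr (Or.inr (Or.inr (Or.inr (Or.inr rfl))))

theorem ev_surj (hX : ∀ i, Nonempty (X i)) (hY : ∀ i, Nonempty (Y i))
    (f : ∀ i, El (X i) (Y i)) :
    ∃ e, ∀ᶠ i in (U : Filter ι), f i = ev e i := by
  classical
  have h : ∀ᶠ i in (U : Filter ι), f i = El.zero ∨ (∃ d, f i = El.y d) ∨ f i = El.b ∨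
      (∃ d, f i = El.x d) ∨ f i = El.c ∨ f i = El.one :=
    Filter.Eventually.of_forall fun i => el_cases (f i)
  simp only [Ultrafilter.eventually_or] at h
  rcases h with h | h | h | h | h | h
  · exact ⟨.zero, h⟩
  · refine ⟨.y fun i => if h : ∃ d, f i = El.y d then h.choose else (hY i).some, ?_⟩
    filter_upwards [h] with i hi
    simp only [ev]
    rw [dif_pos hi]
    exact hi.choose_spec
  · exact ⟨.b, h⟩
  · refine ⟨.x fun i => if h : ∃ d, f i = El.x d then h.choose else (hX i).some, ?_⟩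
    filter_upwards [h] with i hi
    simp only [ev]
    rw [dif_pos hi]
    exact hi.choose_spec
  · exact ⟨.c, h⟩
  · exact ⟨.one, h⟩

theorem cls_le (e e' : El (∀ i, X i) (∀ i, Y i)) :
    El.le (cls U e) (cls U e') ↔ ∀ᶠ i in (U : Filter ι), El.le (ev e i) (ev e' i) := by
  have hU : (U : Filter ι) ≠ ⊥ := U.neBot.ne
  cases e <;> cases e' <;>
    simp [cls, ev, El.le, El.rank, up_eq, hU]

theorem cls_eq (e e' : El (∀ i, X i) (∀ i, Y i)) :
    cls U e = cls U e' ↔ ∀ᶠ i in (U : Filter ι), ev e i = ev e' i := by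
  have hU : (U : Filter ι) ≠ ⊥ := U.neBot.ne
  cases e <;> cases e' <;>
    simp [cls, ev, up_eq, hU]

theorem cls_mul (e e' e'' : El (∀ i, X i) (∀ i, Y i))
    (h : ∀ᶠ i in (U : Filter ι), El.mul (S i) (ev e i) (ev e' i) = ev e'' i) :
    El.mul (upSys U S) (cls U e) (cls U e') = cls U e'' := by
  -- the product as a uniform element
  obtain ⟨m, hm, hm'⟩ : ∃ m, (∀ i, El.mul (S i) (ev e i) (ev e' i) = ev m i) ∧
      El.mul (upSys U S) (cls U e) (cls U e') = cls U m := by
    cases e with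
    | zero => cases e' <;> exact ⟨.zero, fun _ => rfl, rfl⟩
    | one => exact ⟨e', fun i => El.one_mul' (S i) _, El.one_mul' _ _⟩
    | y d =>
      cases e' with
      | one => exact ⟨.y d, fun i => rfl, rfl⟩
      | _ => exact ⟨.zero, fun _ => rfl, rfl⟩
    | b =>
      cases e' with
      | one => exact ⟨.b, fun i => rfl, rfl⟩
      | _ => exact ⟨.zero, fun _ => rfl, rfl⟩
    | x a =>
      cases e' with
      | one => exact ⟨.x a, fun i => rfl, rfl⟩
      | x a' => exact ⟨.y fun i => (S i).op (a i) (a' i), fun i => rfl, rfl⟩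
      | c => exact ⟨.b, fun i => rfl, rfl⟩
      | _ => exact ⟨.zero, fun _ => rfl, rfl⟩
    | c =>
      cases e' with
      | one => exact ⟨.c, fun i => rfl, rfl⟩
      | x a' => exact ⟨.b, fun i => rfl, rfl⟩
      | c => exact ⟨.b, fun i => rfl, rfl⟩
      | _ => exact ⟨.zero, fun _ => rfl, rfl⟩
  rw [hm', cls_eq]
  filter_upwards [h] with i hi
  rw [← hm i, hi]

/-- Values of formulas in the ultraproduct. -/
theorem eval_cls (hX : ∀ i, Nonempty (X i)) (hY : ∀ i, Nonempty (Y i))
    (v : ∀ i, ℕ → El (X i) (Y i)) (w : ℕ → El (UP U X) (UP U Y))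
    (hw : ∀ n, ∃ e : El (∀ i, X i) (∀ i, Y i), (∀ᶠ i in (U : Filter ι), v i n = ev e i) ∧
      w n = cls U e) (φ : Fml) :
    ∀ e : El (∀ i, X i) (∀ i, Y i), (∀ᶠ i in (U : Filter ι), evalE (S i) (v i) φ = ev e i) →
      evalE (upSys U S) w φ = cls U e := by
  induction φ with
  | var n =>
    intro e he
    obtain ⟨e', he', hw'⟩ := hw n
    change w n = _
    rw [hw']
    refine (cls_eq U e' e).2 ?_
    filter_upwards [he, he'] with i h1 h2
    rw [← h2]
    exact h1
  | and φ ψ ih1 ih2 =>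
    intro e he
    obtain ⟨e1, he1⟩ := ev_surj U hX hY fun i => evalE (S i) (v i) φ
    obtain ⟨e2, he2⟩ := ev_surj U hX hY fun i => evalE (S i) (v i) ψ
    rw [evalE, ih1 e1 he1, ih2 e2 he2]
    refine El.eq_of_le_iff fun z => ?_
    obtain ⟨e3, rfl⟩ := cls_surj U z
    rw [El.le_inf_iff'', cls_le, cls_le, cls_le, ← Filter.eventually_and]
    refine Filter.eventually_congr ?_
    filter_upwards [he, he1, he2] with i h3 h4 h5
    rw [← h3, ← h4, ← h5, evalE, El.le_inf_iff'']
  | or φ ψ ih1 ih2 =>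
    intro e he
    obtain ⟨e1, he1⟩ := ev_surj U hX hY fun i => evalE (S i) (v i) φ
    obtain ⟨e2, he2⟩ := ev_surj U hX hY fun i => evalE (S i) (v i) ψ
    rw [evalE, ih1 e1 he1, ih2 e2 he2]
    refine El.eq_of_ge_iff fun z => ?_
    obtain ⟨e3, rfl⟩ := cls_surj U z
    rw [El.sup_le_iff'', cls_le, cls_le, cls_le, ← Filter.eventually_and]
    refine Filter.eventually_congr ?_
    filter_upwards [he, he1, he2] with i h3 h4 h5
    rw [← h3, ← h4, ← h5, evalE, El.sup_le_iff'']
  | mul φ ψ ih1 ih2 =>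
    intro e he
    obtain ⟨e1, he1⟩ := ev_surj U hX hY fun i => evalE (S i) (v i) φ
    obtain ⟨e2, he2⟩ := ev_surj U hX hY fun i => evalE (S i) (v i) ψ
    rw [evalE, ih1 e1 he1, ih2 e2 he2]
    refine cls_mul U S e1 e2 e ?_
    filter_upwards [he, he1, he2] with i h3 h4 h5
    rw [← h3, ← h4, ← h5, evalE]
  | imp φ ψ ih1 ih2 =>
    intro e he
    obtain ⟨e1, he1⟩ := ev_surj U hX hY fun i => evalE (S i) (v i) φ
    obtain ⟨e2, he2⟩ := ev_surj U hX hY fun i => evalE (S i) (v i) ψ
    rw [evalE, ih1 e1 he1, ih2 e2 he2]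
    refine El.eq_of_le_iff fun z => ?_
    obtain ⟨e3, rfl⟩ := cls_surj U z
    obtain ⟨e4, he4⟩ := ev_surj U hX hY fun i => El.mul (S i) (ev e1 i) (ev e3 i)
    rw [← El.res_spec, cls_mul U S e1 e3 e4 he4, cls_le, cls_le]
    refine Filter.eventually_congr ?_
    filter_upwards [he, he1, he2, he4] with i h3 h4 h5 h7
    rw [← h3, ← h5, ← h7, ← h4, evalE, El.res_spec]
  | e =>
    intro e he
    refine (cls_eq U El.one e).2 ?_
    filter_upwards [he] with i h1
    exact h1
  | f =>
    intro e he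
    refine (cls_eq U El.zero e).2 ?_
    filter_upwards [he] with i h1
    exact h1

theorem upSys_omits {P : Set ℕ} (hP : ∀ p ∈ P, p ≠ 0) (h : ∀ i, Omits P (S i)) :
    Omits P (upSys U S) := by
  rintro p hp ⟨z, hz, hz'⟩
  have : NeZero p := ⟨hP p hp⟩
  have h1 : ∀ a, ∃ f : ∀ i, X i, z a = Quotient.mk _ f := fun a =>
    ⟨(z a).out, (Quotient.out_eq (z a)).symm⟩
  choose ζ hζ using h1
  have h2 : ∀ᶠ i in (U : Filter ι), ∀ a b, (ζ a i = ζ b i → a = b) := by
    rw [Filter.eventually_all]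
    intro a
    rw [Filter.eventually_all]
    intro b
    by_cases hab : a = b
    · exact Filter.Eventually.of_forall fun _ _ => hab
    · have h3 : ¬ ∀ᶠ i in (U : Filter ι), ζ a i = ζ b i := by
        intro h4
        refine hab (hz ?_)
        rw [hζ, hζ]
        exact (up_eq U).2 h4
      rw [← Ultrafilter.eventually_not] at h3
      filter_upwards [h3] with i hi h5
      exact absurd h5 hi
  have h3 : ∀ᶠ i in (U : Filter ι), ∀ a b,
      (S i).op (ζ a i) (ζ b i) = (S i).op (ζ (a + b) i) (ζ 0 i) := by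
    rw [Filter.eventually_all]
    intro a
    rw [Filter.eventually_all]
    intro b
    have h4 := hz' a b
    rw [hζ, hζ, hζ, hζ, upSys_op, upSys_op] at h4
    exact (up_eq U).1 h4
  obtain ⟨i, h4, h5⟩ := (h2.and h3).exists
  exact h i p hp ⟨fun a => ζ a i, fun a b hab => h4 a b hab, h5⟩

end ultra

/-- Compactness for the class of `P`. -/
theorem compactness {P : Set ℕ} (hP : ∀ p ∈ P, p ≠ 0) (Pos Neg : Set Fml)
    (h : ∀ F : Finset Fml, ∃ M : Mod P, ∀ φ ∈ F, (φ ∈ Pos → evalE M.S M.v φ = El.one) ∧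
      (φ ∈ Neg → evalE M.S M.v φ ≠ El.one)) :
    ∃ M : Mod P, (∀ φ ∈ Pos, evalE M.S M.v φ = El.one) ∧
      ∀ φ ∈ Neg, evalE M.S M.v φ ≠ El.one := by
  choose M hM using h
  set U : Ultrafilter (Finset Fml) := Ultrafilter.of Filter.atTop with hU
  have hUle : (U : Filter (Finset Fml)) ≤ Filter.atTop := Ultrafilter.of_le _
  have hX : ∀ i, Nonempty (M i).X := fun i => (M i).nx
  have hY : ∀ i, Nonempty (M i).Y := fun i => (M i).ny
  have h1 : ∀ n, ∃ e : El (∀ i, (M i).X) (∀ i, (M i).Y),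
      ∀ᶠ i in (U : Filter (Finset Fml)), (M i).v n = ev e i := fun n =>
    ev_surj U hX hY fun i => (M i).v n
  choose e he using h1
  have h2 : ∀ φ, ∀ e' : El (∀ i, (M i).X) (∀ i, (M i).Y),
      (∀ᶠ i in (U : Filter (Finset Fml)), evalE (M i).S (M i).v φ = ev e' i) →
      evalE (upSys U fun i => (M i).S) (fun n => cls U (e n)) φ = cls U e' := fun φ =>
    eval_cls U (fun i => (M i).S) hX hY (fun i => (M i).v) (fun n => cls U (e n))
      (fun n => ⟨e n, he n, rfl⟩) φ
  refine ⟨⟨UP U fun i => (M i).X, UP U fun i => (M i).Y,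
    ⟨Quotient.mk _ fun i => (hX i).some⟩, ⟨Quotient.mk _ fun i => (hY i).some⟩,
    upSys U fun i => (M i).S, upSys_omits U _ hP fun i => (M i).om, fun n => cls U (e n)⟩, ?_, ?_⟩
  · intro φ hφ
    refine h2 φ El.one ?_
    have h3 : ∀ᶠ F : Finset Fml in Filter.atTop, φ ∈ F := by
      filter_upwards [Filter.eventually_ge_atTop {φ}] with F hF
      exact hF (Finset.mem_singleton_self φ)
    filter_upwards [hUle h3] with F hF
    exact (hM F φ hF).1 hφ
  · intro φ hφ h4
    obtain ⟨e', he'⟩ := ev_surj U hX hY fun i => evalE (M i).S (M i).v φ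
    have h5 := h2 φ e' he'
    change evalE _ _ φ = El.one at h4
    have h6 : cls U e' = cls U El.one := h5.symm.trans h4
    rw [cls_eq] at h6
    have h3 : ∀ᶠ F : Finset Fml in Filter.atTop, φ ∈ F := by
      filter_upwards [Filter.eventually_ge_atTop {φ}] with F hF
      exact hF (Finset.mem_singleton_self φ)
    obtain ⟨i, h7, h8, h9⟩ := (he'.and (h6.and (hUle h3))).exists
    refine (hM i φ h9).2 hφ ?_
    rw [h7, h8]
    rfl



end Pool.Agent.Q217.FL
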